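import Pool.Agent.LC5.Stmts

/-!
# LC5, row BPA: stretching the middle of a trefoil
-/

set_option autoImplicit false

open Topology Filter

namespace Pool.Agent.LC5.H3

open Pool.Agent.LCK Pool.Agent.LC5

noncomputable section

theorem det3_ne_left {a b c : E3} (h : det3 a b c ≠ 0) : a ≠ 0 := by
  rintro rfl
  apply h
  simp [det3]

theorem det3_ne_mid {a b c : E3} (h : det3 a b c ≠ 0) : b ≠ 0 := by
  rintro rfl
  apply h
  simp [det3]

theorem det3_ne_right {a b c : E3} (h : det3 a b c ≠ 0) : c ≠ 0 := by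
  rintro rfl
  apply h
  simp [det3]

/-- direction of link 1, backwards -/
def u1 (l : Fin 5 → ℝ) (v : Fin 6 → E3) (t : ℝ) : E3 :=
  (1 - t) • (v 1 - v 2) - (t * (l 1 / l 2)) • (v 3 - v 2)

/-- direction of link 3 -/
def u4 (l : Fin 5 → ℝ) (v : Fin 6 → E3) (t : ℝ) : E3 :=
  (1 - t) • (v 4 - v 3) + (t * (l 3 / l 2)) • (v 3 - v 2)

/-- vertex 1 -/
def p1 (l : Fin 5 → ℝ) (v : Fin 6 → E3) (t : ℝ) : E3 := v 2 + (l 1 / ‖u1 l v t‖) • u1 l v t

/-- vertex 4 -/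
def p4 (l : Fin 5 → ℝ) (v : Fin 6 → E3) (t : ℝ) : E3 := v 3 + (l 3 / ‖u4 l v t‖) • u4 l v t

/-- combination in the moving frame -/
def cb (l : Fin 5 → ℝ) (v : Fin 6 → E3) (x y z : ℝ) (t : ℝ) : E3 :=
  x • (v 3 - p1 l v t) + y • (v 2 - p1 l v t) + z • (p4 l v t - p1 l v t)

/-- the moving chain -/
def W (l : Fin 5 → ℝ) (v : Fin 6 → E3) (a b c x y z : ℝ) (t : ℝ) : Fin 6 → E3 :=
  ![p1 l v t + (l 0 / ‖cb l v x y z t‖) • cb l v x y z t, p1 l v t, v 2, v 3, p4 l v t,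
    p4 l v t + (l 4 / ‖cb l v a b (c - 1) t‖) • cb l v a b (c - 1) t]

variable {l : Fin 5 → ℝ} {v : Fin 6 → E3}

theorem det_u1 (t : ℝ) :
    det3 (u1 l v t) (v 3 - v 2) (v 4 - v 3) = (1 - t) * dt v := by
  simp only [det3, dt, u1, PiLp.sub_apply, PiLp.smul_apply, smul_eq_mul]
  ring

theorem det_u4 (t : ℝ) :
    det3 (v 1 - v 2) (v 3 - v 2) (u4 l v t) = (1 - t) * dt v := by
  simp only [det3, dt, u4, PiLp.sub_apply, PiLp.add_apply, PiLp.smul_apply, smul_eq_mul]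
  ring

theorem det_W (t : ℝ) :
    det3 (v 3 - p1 l v t) (v 2 - p1 l v t) (p4 l v t - p1 l v t) =
      (l 1 / ‖u1 l v t‖) * (l 3 / ‖u4 l v t‖) * (1 - t) ^ 2 * dt v := by
  unfold p1 p4
  generalize l 1 / ‖u1 l v t‖ = α
  generalize l 3 / ‖u4 l v t‖ = β
  simp only [det3, dt, u1, u4, PiLp.sub_apply, PiLp.add_apply, PiLp.smul_apply, smul_eq_mul]
  ring

theorem det_cb3 (x y z t : ℝ) :
    det3 (v 3 - p1 l v t) (v 2 - p1 l v t) (cb l v x y z t) =
      z * det3 (v 3 - p1 l v t) (v 2 - p1 l v t) (p4 l v t - p1 l v t) := by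
  unfold cb
  generalize p1 l v t = p
  generalize p4 l v t = q
  simp only [det3, PiLp.sub_apply, PiLp.add_apply, PiLp.smul_apply, smul_eq_mul]
  ring

theorem det_cb2 (x y z t : ℝ) :
    det3 (v 3 - p1 l v t) (cb l v x y z t) (p4 l v t - p1 l v t) =
      y * det3 (v 3 - p1 l v t) (v 2 - p1 l v t) (p4 l v t - p1 l v t) := by
  unfold cb
  generalize p1 l v t = p
  generalize p4 l v t = q
  simp only [det3, PiLp.sub_apply, PiLp.add_apply, PiLp.smul_apply, smul_eq_mul]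
  ring

theorem u1_cont : Continuous (u1 l v) := by unfold u1; fun_prop

theorem u4_cont : Continuous (u4 l v) := by unfold u4; fun_prop

theorem nrm_cont {f : ℝ → E3} {s : Set ℝ} (hf : ContinuousOn f s) (h0 : ∀ t ∈ s, f t ≠ 0) (r : ℝ) :
    ContinuousOn (fun t => (r / ‖f t‖) • f t) s := by
  have h1 : ContinuousOn (fun t => r / ‖f t‖) s :=
    continuousOn_const.div hf.norm (fun t ht => norm_ne_zero_iff.mpr (h0 t ht))
  exact h1.smul hf

theorem norm_nrm {u : E3} (h : u ≠ 0) {r : ℝ} (hr : 0 < r) : ‖(r / ‖u‖) • u‖ = r := by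
  have h1 : 0 < ‖u‖ := norm_pos_iff.mpr h
  rw [norm_smul, Real.norm_eq_abs, abs_of_pos (div_pos hr h1), div_mul_cancel₀ _ h1.ne']

theorem u1_ne (hd : dt v ≠ 0) {t : ℝ} (ht : t < 1) : u1 l v t ≠ 0 := by
  apply det3_ne_left (b := v 3 - v 2) (c := v 4 - v 3)
  rw [det_u1]
  exact mul_ne_zero (by linarith) hd

theorem u4_ne (hd : dt v ≠ 0) {t : ℝ} (ht : t < 1) : u4 l v t ≠ 0 := by
  apply det3_ne_right (a := v 1 - v 2) (b := v 3 - v 2)
  rw [det_u4]
  exact mul_ne_zero (by linarith) hd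

theorem detW_ne (hl : ∀ k, 0 < l k) (hd : dt v ≠ 0) {t : ℝ} (ht : t < 1) :
    det3 (v 3 - p1 l v t) (v 2 - p1 l v t) (p4 l v t - p1 l v t) ≠ 0 := by
  rw [det_W]
  have h1 : 0 < ‖u1 l v t‖ := norm_pos_iff.mpr (u1_ne hd ht)
  have h4 : 0 < ‖u4 l v t‖ := norm_pos_iff.mpr (u4_ne hd ht)
  have h5 : 0 < 1 - t := by linarith
  have h6 := div_pos (hl 1) h1
  have h7 := div_pos (hl 3) h4
  exact mul_ne_zero (by positivity) hd

theorem cb_ne3 (hl : ∀ k, 0 < l k) (hd : dt v ≠ 0) {t : ℝ} (ht : t < 1) {x y z : ℝ} (hz : z ≠ 0) :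
    cb l v x y z t ≠ 0 := by
  apply det3_ne_right (a := v 3 - p1 l v t) (b := v 2 - p1 l v t)
  rw [det_cb3]
  exact mul_ne_zero hz (detW_ne hl hd ht)

theorem p1_cont (hd : dt v ≠ 0) : ContinuousOn (p1 l v) (Set.Iio 1) :=
  continuousOn_const.add (nrm_cont u1_cont.continuousOn (fun _ ht => u1_ne hd ht) _)

theorem p4_cont (hd : dt v ≠ 0) : ContinuousOn (p4 l v) (Set.Iio 1) :=
  continuousOn_const.add (nrm_cont u4_cont.continuousOn (fun _ ht => u4_ne hd ht) _)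

theorem cb_cont (hd : dt v ≠ 0) (x y z : ℝ) : ContinuousOn (cb l v x y z) (Set.Iio 1) := by
  have h1 := p1_cont (l := l) hd
  have h4 := p4_cont (l := l) hd
  unfold cb
  exact (((continuousOn_const.sub h1).const_smul x).add
    ((continuousOn_const.sub h1).const_smul y)).add ((h4.sub h1).const_smul z)

theorem W_cont (hl : ∀ k, 0 < l k) (hd : dt v ≠ 0) {a b c x y z : ℝ} (hz : z ≠ 0) (hc : c - 1 ≠ 0) :
    ContinuousOn (W l v a b c x y z) (Set.Iio 1) := by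
  have h1 := p1_cont (l := l) hd
  have h4 := p4_cont (l := l) hd
  have hX := nrm_cont (cb_cont (l := l) hd x y z) (fun t ht => cb_ne3 hl hd ht hz) (l 0)
  have hD := nrm_cont (cb_cont (l := l) hd a b (c - 1)) (fun t ht => cb_ne3 hl hd ht hc) (l 4)
  rw [continuousOn_pi]
  intro i
  fin_cases i
  · exact h1.add hX
  · exact h1
  · exact continuousOn_const
  · exact continuousOn_const
  · exact h4
  · exact h4.add hD

/-- the chain is a trefoil for the rays -/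
theorem W_ray (hl : ∀ k, 0 < l k) (hd : dt v ≠ 0) {a b c x y z : ℝ} (ha : 0 < a) (hb : 0 < b)
    (hc : a + b + c < 1) (hy : 0 < y) (hz : 0 < z) (hx : y * a < x * b) {t : ℝ} (ht : t < 1) :
    BRay (W l v a b c x y z t) := by
  have hX : 0 < ‖cb l v x y z t‖ := norm_pos_iff.mpr (cb_ne3 hl hd ht hz.ne')
  have hD : 0 < ‖cb l v a b (c - 1) t‖ := norm_pos_iff.mpr (cb_ne3 hl hd ht (by linarith))
  have hk := div_pos (hl 4) hD
  have hm := div_pos (hl 0) hX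
  refine ⟨?_, (l 4 / ‖cb l v a b (c - 1) t‖) * a, (l 4 / ‖cb l v a b (c - 1) t‖) * b,
    1 + (l 4 / ‖cb l v a b (c - 1) t‖) * (c - 1), (l 0 / ‖cb l v x y z t‖) * x,
    (l 0 / ‖cb l v x y z t‖) * y, (l 0 / ‖cb l v x y z t‖) * z, ?_, ?_, ?_, ?_, ?_, ?_, ?_, ?_⟩
  · exact detW_ne hl hd ht
  · change p4 l v t + (l 4 / ‖cb l v a b (c - 1) t‖) • cb l v a b (c - 1) t =
      p1 l v t + (((l 4 / ‖cb l v a b (c - 1) t‖) * a) • (v 3 - p1 l v t) +
        ((l 4 / ‖cb l v a b (c - 1) t‖) * b) • (v 2 - p1 l v t) +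
        (1 + (l 4 / ‖cb l v a b (c - 1) t‖) * (c - 1)) • (p4 l v t - p1 l v t))
    generalize l 4 / ‖cb l v a b (c - 1) t‖ = κ
    unfold cb
    module
  · change p1 l v t + (l 0 / ‖cb l v x y z t‖) • cb l v x y z t =
      p1 l v t + (((l 0 / ‖cb l v x y z t‖) * x) • (v 3 - p1 l v t) +
        ((l 0 / ‖cb l v x y z t‖) * y) • (v 2 - p1 l v t) +
        ((l 0 / ‖cb l v x y z t‖) * z) • (p4 l v t - p1 l v t))
    generalize l 0 / ‖cb l v x y z t‖ = κ
    unfold cb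
    module
  · exact mul_pos hk ha
  · exact mul_pos hk hb
  · nlinarith
  · exact mul_pos hm hy
  · exact mul_pos hm hz
  · have := mul_pos hk hm
    nlinarith

theorem bpa (hSM : SM6Stmt) (hBSI : BSIStmt) : BPAStmt := by
  intro l hl hl0 v hv hray
  obtain ⟨hd, a, b, c, x, y, z, h5, h0, ha, hb, hc, hy, hz, hx⟩ := hray
  obtain ⟨⟨e0, e1, e2, e3, e4⟩, -⟩ := (hSM.2 l v).mp hv
  have hc1 : c - 1 < 0 := by linarith
  -- the chain at time `t < 1`
  have hconf : ∀ t < (1 : ℝ), W l v a b c x y z t ∈ Conf l := by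
    intro t ht
    rw [hSM.2]
    have hX := cb_ne3 (x := x) (y := y) hl hd ht hz.ne'
    have hD := cb_ne3 (x := a) (y := b) hl hd ht hc1.ne
    refine ⟨⟨?_, ?_, ?_, ?_, ?_⟩, hBSI _ (W_ray hl hd ha hb hc hy hz hx ht)⟩
    · change dist (p1 l v t + (l 0 / ‖cb l v x y z t‖) • cb l v x y z t) (p1 l v t) = l 0
      rw [dist_eq_norm, add_sub_cancel_left, norm_nrm hX (hl 0)]
    · change dist (v 2 + (l 1 / ‖u1 l v t‖) • u1 l v t) (v 2) = l 1
      rw [dist_eq_norm, add_sub_cancel_left, norm_nrm (u1_ne hd ht) (hl 1)]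
    · exact e2
    · change dist (v 3) (v 3 + (l 3 / ‖u4 l v t‖) • u4 l v t) = l 3
      rw [dist_comm, dist_eq_norm, add_sub_cancel_left, norm_nrm (u4_ne hd ht) (hl 3)]
    · change dist (p4 l v t)
        (p4 l v t + (l 4 / ‖cb l v a b (c - 1) t‖) • cb l v a b (c - 1) t) = l 4
      rw [dist_comm, dist_eq_norm, add_sub_cancel_left, norm_nrm hD (hl 4)]
  -- the chain at time 0
  have hu1 : u1 l v 0 = v 1 - v 2 := by simp [u1]
  have hu4 : u4 l v 0 = v 4 - v 3 := by simp [u4]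
  have hp1 : p1 l v 0 = v 1 := by
    have : ‖v 1 - v 2‖ = l 1 := by rw [← dist_eq_norm]; exact e1
    rw [p1, hu1, this, div_self (hl 1).ne', one_smul]
    abel
  have hp4 : p4 l v 0 = v 4 := by
    have : ‖v 4 - v 3‖ = l 3 := by rw [← dist_eq_norm, dist_comm]; exact e3
    rw [p4, hu4, this, div_self (hl 3).ne', one_smul]
    abel
  have hX0 : cb l v x y z 0 = v 0 - v 1 := by
    rw [cb, hp1, hp4, h0, pt]
    abel
  have hD0 : cb l v a b (c - 1) 0 = v 5 - v 4 := by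
    rw [cb, hp1, hp4, h5, pt]
    simp only
    module
  have hW0 : W l v a b c x y z 0 = v := by
    have n0 : ‖v 0 - v 1‖ = l 0 := by rw [← dist_eq_norm]; exact e0
    have n4 : ‖v 5 - v 4‖ = l 4 := by rw [← dist_eq_norm, dist_comm]; exact e4
    ext1 i
    fin_cases i
    · change p1 l v 0 + (l 0 / ‖cb l v x y z 0‖) • cb l v x y z 0 = v 0
      rw [hX0, n0, div_self (hl 0).ne', one_smul, hp1]
      abel
    · exact hp1
    · rfl
    · rfl
    · exact hp4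
    · change p4 l v 0 + (l 4 / ‖cb l v a b (c - 1) 0‖) • cb l v a b (c - 1) 0 = v 5
      rw [hD0, n4, div_self (hl 4).ne', one_smul, hp4]
      abel
  -- the limit
  have hn : ‖v 3 - v 2‖ = l 2 := by rw [← dist_eq_norm, dist_comm]; exact e2
  have hm0 : v 3 - v 2 ≠ 0 := by
    rw [← norm_ne_zero_iff, hn]; exact (hl 2).ne'
  have k1 : u1 l v 1 = -((l 1 / l 2) • (v 3 - v 2)) := by simp [u1]
  have k4 : u4 l v 1 = (l 3 / l 2) • (v 3 - v 2) := by simp [u4]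
  have k1n : ‖u1 l v 1‖ = l 1 := by
    rw [k1, norm_neg, norm_smul, hn, Real.norm_eq_abs, abs_of_pos (div_pos (hl 1) (hl 2)),
      div_mul_cancel₀ _ (hl 2).ne']
  have k4n : ‖u4 l v 1‖ = l 3 := by
    rw [k4, norm_smul, hn, Real.norm_eq_abs, abs_of_pos (div_pos (hl 3) (hl 2)),
      div_mul_cancel₀ _ (hl 2).ne']
  have q1 : p1 l v 1 = v 2 - (l 1 / l 2) • (v 3 - v 2) := by
    rw [p1, k1n, div_self (hl 1).ne', one_smul, k1]
    abel
  have q4 : p4 l v 1 = v 3 + (l 3 / l 2) • (v 3 - v 2) := by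
    rw [p4, k4n, div_self (hl 3).ne', one_smul, k4]
  have hdist1 : dist (p1 l v 1) (p4 l v 1) = l 1 + l 2 + l 3 := by
    have h1 : p4 l v 1 - p1 l v 1 = ((l 1 + l 2 + l 3) / l 2) • (v 3 - v 2) := by
      rw [q1, q4, show (l 1 + l 2 + l 3) / l 2 = l 1 / l 2 + 1 + l 3 / l 2 by
        have := (hl 2).ne'
        field_simp]
      module
    have h2 : 0 < l 1 + l 2 + l 3 := by linarith [hl 1, hl 2, hl 3]
    rw [dist_comm, dist_eq_norm, h1, norm_smul, hn, Real.norm_eq_abs,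
      abs_of_pos (div_pos h2 (hl 2)), div_mul_cancel₀ _ (hl 2).ne']
  have c1 : ContinuousAt (p1 l v) 1 := by
    have h1 : ContinuousAt (fun t => l 1 / ‖u1 l v t‖) 1 :=
      continuousAt_const.div u1_cont.continuousAt.norm (by rw [k1n]; exact (hl 1).ne')
    exact continuousAt_const.add (h1.smul u1_cont.continuousAt)
  have c4 : ContinuousAt (p4 l v) 1 := by
    have h1 : ContinuousAt (fun t => l 3 / ‖u4 l v t‖) 1 :=
      continuousAt_const.div u4_cont.continuousAt.norm (by rw [k4n]; exact (hl 3).ne')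
    exact continuousAt_const.add (h1.smul u4_cont.continuousAt)
  have hev : ∀ᶠ t in 𝓝 (1 : ℝ), l 0 < dist (p1 l v t) (p4 l v t) := by
    have h1 : ContinuousAt (fun t => dist (p1 l v t) (p4 l v t)) 1 := c1.dist c4
    have h2 : l 0 < dist (p1 l v 1) (p4 l v 1) := by rw [hdist1]; exact hl0
    exact h1.eventually (lt_mem_nhds h2)
  obtain ⟨t₀, ht₀, h01, h02⟩ : ∃ t, l 0 < dist (p1 l v t) (p4 l v t) ∧ 0 < t ∧ t < 1 := by
    have h1 : ∀ᶠ t in 𝓝[<] (1 : ℝ), l 0 < dist (p1 l v t) (p4 l v t) :=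
      hev.filter_mono nhdsWithin_le_nhds
    have h2 : ∀ᶠ t in 𝓝[<] (1 : ℝ), t ∈ Set.Ioo (0 : ℝ) 1 :=
      Ioo_mem_nhdsLT zero_lt_one
    obtain ⟨t, h3, h4⟩ := (h1.and h2).exists
    exact ⟨t, h3, h4.1, h4.2⟩
  refine ⟨W l v a b c x y z t₀, hconf t₀ h02, ?_, W_ray hl hd ha hb hc hy hz hx h02, ht₀⟩
  have hlt : ∀ s ∈ unitInterval, s * t₀ < 1 := by
    intro s hs
    have h1 : s * t₀ ≤ 1 * t₀ := mul_le_mul_of_nonneg_right hs.2 h01.le
    linarith
  refine JoinedIn.ofLine (f := fun s : ℝ => W l v a b c x y z (s * t₀)) ?_ ?_ ?_ ?_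
  · exact (W_cont hl hd hz.ne' hc1.ne).comp (by fun_prop) (fun s hs => hlt s hs)
  · simp only [zero_mul]
    exact hW0
  · simp only [one_mul]
  · rintro w ⟨s, hs, rfl⟩
    exact hconf _ (hlt s hs)

end

end Pool.Agent.LC5.H3
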